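import Pool.Agent.J6H7.SC.Defs

/-!
# Counting the inputs in the outer layers
-/

set_option autoImplicit false

namespace Pool.Agent.J6H7.SC

open Finset

variable {N : ℕ}

/-- the number of the positions with the letter `b` -/
def cb (b : Bool) (x : Fin N → Bool) : ℕ := (univ.filter fun i => x i = b).card

theorem sum_weight (b : Bool) :
    ∑ x : Fin N → Bool, ((1:ℝ) / 4) ^ cb b x = (5 / 4) ^ N := by
  classical
  have h1 : ∏ _i : Fin N, ∑ c : Bool, (if c = b then (1:ℝ) / 4 else 1) =
      ∑ x : Fin N → Bool, ∏ i, (if x i = b then (1:ℝ) / 4 else 1) := by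
    rw [Finset.prod_univ_sum, Fintype.piFinset_univ]
  have h2 : ∑ c : Bool, (if c = b then (1:ℝ) / 4 else 1) = 5 / 4 := by
    rw [Fintype.sum_bool]
    cases b
    · norm_num
    · norm_num
  rw [h2, Finset.prod_const, Finset.card_univ, Fintype.card_fin] at h1
  rw [h1]
  refine Finset.sum_congr rfl fun x _ => ?_
  rw [Finset.prod_ite, Finset.prod_const, Finset.prod_const_one, mul_one]
  rfl

/-- The inputs with few letters `b`. -/
theorem card_few (b : Bool) (T : ℕ) :
    ((univ.filter fun x : Fin N → Bool => cb b x ≤ T).card : ℝ) ≤ 4 ^ T * (5 / 4) ^ N := by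
  classical
  have h1 : ∑ x ∈ univ.filter (fun x : Fin N → Bool => cb b x ≤ T), ((1:ℝ) / 4) ^ T ≤
      (5 / 4) ^ N := by
    rw [← sum_weight b]
    refine (Finset.sum_le_sum (g := fun x => ((1:ℝ) / 4) ^ cb b x) fun x hx => ?_).trans
      (Finset.sum_le_sum_of_subset_of_nonneg (Finset.subset_univ _) fun x _ _ => by positivity)
    exact pow_le_pow_of_le_one (by norm_num) (by norm_num) (Finset.mem_filter.1 hx).2
  rw [Finset.sum_const, nsmul_eq_mul, one_div, inv_pow, ← div_eq_mul_inv,
    div_le_iff₀ (by positivity)] at h1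
  linarith

/-- flip the bit at `j` -/
def flipAt (j : Fin N) (x : Fin N → Bool) : Fin N → Bool := Function.update x j (!(x j))

theorem flip_flip (j : Fin N) (x : Fin N → Bool) : flipAt j (flipAt j x) = x := by
  unfold flipAt
  rw [Function.update_self, Bool.not_not, Function.update_idem, Function.update_eq_self]

theorem flip_of_ne {i j : Fin N} (h : i ≠ j) (x : Fin N → Bool) : flipAt j x i = x i :=
  Function.update_of_ne h _ _

theorem flip_self (j : Fin N) (x : Fin N → Bool) : flipAt j x j = !(x j) :=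
  Function.update_self _ _ _

theorem cb_flip (b : Bool) (j : Fin N) (x : Fin N → Bool) :
    cb b (flipAt j x) + (if x j = b then 1 else 0) = cb b x + (if x j = b then 0 else 1) := by
  classical
  have h0 : ∀ y : Fin N → Bool, cb b y =
      (((univ.erase j).filter fun i => y i = b).card) + (if y j = b then 1 else 0) := by
    intro y
    unfold cb
    rw [← Finset.insert_erase (Finset.mem_univ j), Finset.filter_insert]
    split_ifs with h
    · rw [Finset.card_insert_of_notMem (by simp), Finset.erase_insert (by simp)]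
    · rw [Finset.erase_insert (by simp), Nat.add_zero]
  have h1 : ((univ.erase j).filter fun i => flipAt j x i = b) =
      ((univ.erase j).filter fun i => x i = b) := by
    refine Finset.filter_congr fun i hi => ?_
    rw [flip_of_ne (Finset.ne_of_mem_erase hi)]
  rw [h0 (flipAt j x), h0 x, h1, flip_self]
  cases x j <;> cases b <;> simp

/-- The parity. -/
theorem cb_flip_mod (j : Fin N) (x : Fin N → Bool) :
    cb true (flipAt j x) % 2 = 1 ↔ ¬ cb true x % 2 = 1 := by
  have h := cb_flip true j x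
  split_ifs at h <;> omega

/-- The inputs that are not in the middle, or not in the middle when the bit `j` is flipped. -/
def Bad (k : ℕ) (j : Fin N) (x : Fin N → Bool) : Prop := ¬ Middle k x ∨ ¬ Middle k (flipAt j x)

theorem bad_flip {k : ℕ} {j : Fin N} {x : Fin N → Bool} : Bad k j (flipAt j x) ↔ Bad k j x := by
  unfold Bad
  rw [flip_flip]
  exact or_comm

open Classical in
theorem card_bad {k : ℕ} (hk : 20 ≤ k) (hN : 40 ≤ N) (j : Fin N) :
    ((univ.filter fun x : Fin N → Bool => Bad k j x).card : ℝ) ≤ 2 ^ ((4 / 5 : ℝ) * N) := by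
  have hsub : (univ.filter fun x : Fin N → Bool => Bad k j x) ⊆
      (univ.filter fun x : Fin N → Bool => cb true x ≤ N / 5 + 1) ∪
      (univ.filter fun x : Fin N → Bool => cb false x ≤ N / 5 + 1) := by
    intro x hx
    rw [Finset.mem_filter] at hx
    rw [Finset.mem_union, Finset.mem_filter, Finset.mem_filter]
    by_contra hcon
    rw [not_or] at hcon
    obtain ⟨h1, h2⟩ := hcon
    have h1' : N / 5 + 1 < cb true x := by
      by_contra h
      exact h1 ⟨Finset.mem_univ _, not_lt.1 h⟩
    have h2' : N / 5 + 1 < cb false x := by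
      by_contra h
      exact h2 ⟨Finset.mem_univ _, not_lt.1 h⟩
    have hmid : ∀ y : Fin N → Bool, N / 5 + 1 ≤ cb true y → N / 5 + 1 ≤ cb false y →
        Middle k y := by
      intro y ha hb
      have key : ∀ c, N / 5 + 1 ≤ c → 4 * N ≤ k * c := by
        intro c hc
        refine le_trans ?_ (Nat.mul_le_mul hk hc)
        omega
      exact ⟨key _ ha, key _ hb⟩
    rcases hx.2 with h3 | h3
    · exact h3 (hmid x (by omega) (by omega))
    · refine h3 (hmid _ ?_ ?_)
      · have := cb_flip true j x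
        split_ifs at this <;> omega
      · have := cb_flip false j x
        split_ifs at this <;> omega
  have h1 : ((univ.filter fun x : Fin N → Bool => Bad k j x).card : ℝ) ≤
      4 ^ (N / 5 + 1) * (5 / 4) ^ N + 4 ^ (N / 5 + 1) * (5 / 4) ^ N := by
    refine (Nat.cast_le.2 ((Finset.card_le_card hsub).trans (Finset.card_union_le _ _))).trans ?_
    rw [Nat.cast_add]
    exact add_le_add (card_few true _) (card_few false _)
  refine h1.trans ?_
  have e1 : (5 / 4 : ℝ) ^ N ≤ 2 ^ ((13 / 40 : ℝ) * N) := by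
    rw [Real.rpow_mul (by norm_num), Real.rpow_natCast]
    refine pow_le_pow_left₀ (by norm_num) ?_ N
    have h2 : (5 / 4 : ℝ) = ((5 / 4 : ℝ) ^ (40:ℕ)) ^ ((1:ℝ) / 40) := by
      rw [← Real.rpow_natCast, ← Real.rpow_mul (by norm_num)]
      norm_num
    have h3 : (2:ℝ) ^ (13 / 40 : ℝ) = ((2 : ℝ) ^ (13:ℕ)) ^ ((1:ℝ) / 40) := by
      rw [← Real.rpow_natCast, ← Real.rpow_mul (by norm_num)]
      norm_num
    rw [h2, h3]
    exact Real.rpow_le_rpow (by positivity) (by norm_num) (by norm_num)
  have e2 : (4 : ℝ) ^ (N / 5 + 1) ≤ 2 ^ ((2 / 5 : ℝ) * N + 2) := by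
    have h2 : (4 : ℝ) ^ (N / 5 + 1) = 2 ^ (((2 * (N / 5 + 1) : ℕ) : ℝ)) := by
      rw [Real.rpow_natCast, pow_mul]
      norm_num
    rw [h2]
    refine Real.rpow_le_rpow_of_exponent_le (by norm_num) ?_
    have h3 : ((N / 5 : ℕ) : ℝ) ≤ (N : ℝ) / 5 := Nat.cast_div_le
    push_cast at h3 ⊢
    linarith
  have hN' : (40 : ℝ) ≤ N := by exact_mod_cast hN
  calc (4:ℝ) ^ (N / 5 + 1) * (5 / 4) ^ N + 4 ^ (N / 5 + 1) * (5 / 4) ^ N
      = 2 * (4 ^ (N / 5 + 1) * (5 / 4) ^ N) := by ring
    _ ≤ 2 * (2 ^ ((2 / 5 : ℝ) * N + 2) * 2 ^ ((13 / 40 : ℝ) * N)) := by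
        refine mul_le_mul_of_nonneg_left ?_ (by norm_num)
        exact mul_le_mul e2 e1 (by positivity) (by positivity)
    _ = 2 ^ (1 + (((2 / 5 : ℝ) * N + 2) + (13 / 40 : ℝ) * N)) := by
        rw [← Real.rpow_add (by norm_num), Real.rpow_add (by norm_num) 1, Real.rpow_one]
    _ ≤ 2 ^ ((4 / 5 : ℝ) * N) := by
        refine Real.rpow_le_rpow_of_exponent_le (by norm_num) ?_
        linarith

end Pool.Agent.J6H7.SC
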