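import Mathlib

/-!
# Circuits whose gates have few transforms: definitions
-/

set_option autoImplicit false

namespace Pool.Agent.J6H7.SC

open Equiv

/-- Boolean functions of `N` bits. -/
abbrev BF (N : ℕ) : Type := (Fin N → Bool) → Bool

/-- The function `f` with the input bits permuted. -/
def move {N : ℕ} (σ : Perm (Fin N)) (f : BF N) : BF N := fun x => f (x ∘ σ)

/-- The function `φ` of the wires takes the value `b` only if at most `t` of the wires in `A`
force it to take this value. -/
def Certified {W : Type} (A : Set W) (φ : (W → Bool) → Bool) (t : ℕ) (b : Bool) : Prop :=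
  ∀ v, φ v = b → ∃ B : Finset W, (∀ c ∈ B, c ∈ A) ∧ B.card ≤ t ∧
    ∀ w, (∀ c ∈ B, w c = v c) → φ w = b

/-- A circuit with `N` inputs and the set `I` of gates. `ch g` is the set of the wires that enter
the gate `g` (a wire carries an input bit or the value of a gate), `fn g` is the function of the
values of these wires that is computed at `g`. Wires go from gates of smaller to gates of larger
`rank`. Every gate which has more than `r` wires is a gate for which one of the two values is
certified by at most `t` wires. -/
structure Circ (N t r : ℕ) (I : Type) where
  ch : I → Set (Fin N ⊕ I)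
  fn : I → (Fin N ⊕ I → Bool) → Bool
  rank : I → ℕ
  rank_lt : ∀ g h, Sum.inr h ∈ ch g → rank h < rank g
  dep : ∀ g v w, (∀ c ∈ ch g, v c = w c) → fn g v = fn g w
  kind : ∀ g, (∃ b, Certified (ch g) (fn g) t b) ∨ (ch g).ncard ≤ r

namespace Circ

variable {N t r : ℕ} {I : Type}

open Classical in
/-- The value of the gate `g` on the input `x`. -/
noncomputable def eval (C : Circ N t r I) (x : Fin N → Bool) (g : I) : Bool :=
  C.fn g (Sum.elim x fun h => if _ : Sum.inr h ∈ C.ch g then C.eval x h else false)
termination_by C.rank g
decreasing_by exact C.rank_lt g h ‹_›

/-- The value of a wire on the input `x`. -/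
noncomputable def val (C : Circ N t r I) (x : Fin N → Bool) : Fin N ⊕ I → Bool :=
  Sum.elim x (C.eval x)

open Classical in
/-- The trace of a gate: only the function computed at the gate, if one of the values of the
gate is certified by at most `t` wires, and the set of all functions on the wires that enter the
gate otherwise. -/
noncomputable def trace (C : Circ N t r I) (g : I) : Set (BF N) :=
  if ∃ b, Certified (C.ch g) (C.fn g) t b then {fun x => C.eval x g}
  else (fun c x => C.val x c) '' C.ch g

/-- The sets of functions that are obtained from the trace of the gate `g` by permuting the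
input bits. -/
def transforms (C : Circ N t r I) (g : I) : Set (Set (BF N)) :=
  {F | ∃ σ : Perm (Fin N), F = move σ '' C.trace g}

/-- The permutation `π` of the gates is an automorphism of the circuit which permutes the inputs
by `σ`. -/
structure IsAut (C : Circ N t r I) (σ : Perm (Fin N)) (π : Perm I) : Prop where
  ch : ∀ g c, Sum.map σ π c ∈ C.ch (π g) ↔ c ∈ C.ch g
  fn : ∀ g v, C.fn (π g) v = C.fn g (v ∘ Sum.map σ π)

/-- The permutations of the inputs which extend to automorphisms of the circuit. -/
def symmetries (C : Circ N t r I) : Set (Perm (Fin N)) := {σ | ∃ π : Perm I, C.IsAut σ π}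

end Circ

/-- The input has at least `4 N / k` ones and at least `4 N / k` zeros. -/
def Middle (k : ℕ) {N : ℕ} (x : Fin N → Bool) : Prop :=
  4 * N ≤ k * (Finset.univ.filter fun i => x i = true).card ∧
    4 * N ≤ k * (Finset.univ.filter fun i => x i = false).card

end Pool.Agent.J6H7.SC
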