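import Pool.Agent.J6H7.SC.Main
import Pool.Agent.J6H7.SC.Count
import Pool.Agent.NPC.Dec

/-!
# Circuits whose gates have few transforms and the parity language
-/

set_option autoImplicit false

open Finset

namespace Pool.Agent.J6H7.SC

open Pool.Agent.NPC

section

variable {N k : ℕ}

open Classical in
/-- A function that is invariant under a flipAt on most inputs agrees with a function that is not
on about half of the inputs. -/
theorem agree_count {j : Fin N} {f : (Fin N → Bool) → Bool} {P : (Fin N → Bool) → Prop}
    (hf : ∀ x, ¬ Bad k j x → f (flipAt j x) = f x) (hP : ∀ x, P (flipAt j x) ↔ ¬ P x) :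
    |((univ.filter fun x => (f x = true ↔ P x)).card : ℝ) - 2 ^ N / 2| ≤
      ((univ.filter fun x : Fin N → Bool => Bad k j x).card : ℝ) := by
  have h1 : (univ.filter fun x => (f x = true ↔ P x) ∧ ¬ Bad k j x).card =
      (univ.filter fun x => ¬ (f x = true ↔ P x) ∧ ¬ Bad k j x).card := by
    refine Finset.card_bij (fun x _ => flipAt j x) ?_ ?_ ?_
    · intro x hx
      rw [Finset.mem_filter] at hx ⊢
      refine ⟨Finset.mem_univ _, ?_, by rw [bad_flip]; exact hx.2.2⟩
      rw [hf x hx.2.2, hP]
      have := hx.2.1
      tauto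
    · intro x _ y _ h
      rw [← flip_flip j x, h, flip_flip]
    · intro y hy
      rw [Finset.mem_filter] at hy
      refine ⟨flipAt j y, ?_, flip_flip j y⟩
      rw [Finset.mem_filter]
      refine ⟨Finset.mem_univ _, ?_, by rw [bad_flip]; exact hy.2.2⟩
      rw [hf y hy.2.2, hP]
      have := hy.2.1
      tauto
  have h2 : (univ.filter fun x => (f x = true ↔ P x)).card =
      (univ.filter fun x => (f x = true ↔ P x) ∧ Bad k j x).card +
      (univ.filter fun x => (f x = true ↔ P x) ∧ ¬ Bad k j x).card := by
    rw [← Finset.filter_filter, ← Finset.filter_filter, Finset.card_filter_add_card_filter_not]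
  have h3 : (univ.filter fun x => ¬ (f x = true ↔ P x)).card =
      (univ.filter fun x => ¬ (f x = true ↔ P x) ∧ Bad k j x).card +
      (univ.filter fun x => ¬ (f x = true ↔ P x) ∧ ¬ Bad k j x).card := by
    rw [← Finset.filter_filter, ← Finset.filter_filter, Finset.card_filter_add_card_filter_not]
  have h4 : (univ.filter fun x : Fin N → Bool => Bad k j x).card =
      (univ.filter fun x => (f x = true ↔ P x) ∧ Bad k j x).card +
      (univ.filter fun x => ¬ (f x = true ↔ P x) ∧ Bad k j x).card := by
    have h5 := Finset.card_filter_add_card_filter_not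
      (s := univ.filter fun x : Fin N → Bool => Bad k j x) (fun x => (f x = true ↔ P x))
    rw [Finset.filter_filter, Finset.filter_filter] at h5
    rw [← h5]
    congr 2
    · ext x
      simp only [Finset.mem_filter, Finset.mem_univ, true_and]
      exact and_comm
    · ext x
      simp only [Finset.mem_filter, Finset.mem_univ, true_and]
      exact and_comm
  have h5 : (univ.filter fun x => (f x = true ↔ P x)).card +
      (univ.filter fun x => ¬ (f x = true ↔ P x)).card = 2 ^ N := by
    rw [Finset.card_filter_add_card_filter_not, Finset.card_univ]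
    simp
  have h5' : ((univ.filter fun x => (f x = true ↔ P x)).card : ℝ) +
      ((univ.filter fun x => ¬ (f x = true ↔ P x)).card : ℝ) = 2 ^ N := by
    exact_mod_cast h5
  rw [← h5', abs_le]
  have g2 : ((univ.filter fun x => (f x = true ↔ P x)).card : ℝ) =
      ((univ.filter fun x => (f x = true ↔ P x) ∧ Bad k j x).card : ℝ) +
      ((univ.filter fun x => (f x = true ↔ P x) ∧ ¬ Bad k j x).card : ℝ) := by
    exact_mod_cast h2
  have g3 : ((univ.filter fun x => ¬ (f x = true ↔ P x)).card : ℝ) =
      ((univ.filter fun x => ¬ (f x = true ↔ P x) ∧ Bad k j x).card : ℝ) +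
      ((univ.filter fun x => ¬ (f x = true ↔ P x) ∧ ¬ Bad k j x).card : ℝ) := by
    exact_mod_cast h3
  have g4 : ((univ.filter fun x : Fin N → Bool => Bad k j x).card : ℝ) =
      ((univ.filter fun x => (f x = true ↔ P x) ∧ Bad k j x).card : ℝ) +
      ((univ.filter fun x => ¬ (f x = true ↔ P x) ∧ Bad k j x).card : ℝ) := by
    exact_mod_cast h4
  have g1 : ((univ.filter fun x => (f x = true ↔ P x) ∧ ¬ Bad k j x).card : ℝ) =
      ((univ.filter fun x => ¬ (f x = true ↔ P x) ∧ ¬ Bad k j x).card : ℝ) := by
    exact_mod_cast h1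
  have n1 : (0 : ℝ) ≤ ((univ.filter fun x => (f x = true ↔ P x) ∧ Bad k j x).card : ℝ) :=
    Nat.cast_nonneg _
  have n2 : (0 : ℝ) ≤ ((univ.filter fun x => ¬ (f x = true ↔ P x) ∧ Bad k j x).card : ℝ) :=
    Nat.cast_nonneg _
  rw [g2, g3, g4, g1]
  constructor <;> linarith

end

/-- The words with an odd number of ones. -/
def L : Set (List Bool) := {w | (w.filter fun b => b).length % 2 = 1}

theorem mem_L_ofFn {N : ℕ} (x : Fin N → Bool) : List.ofFn x ∈ L ↔ cb true x % 2 = 1 := by
  have h : ((List.ofFn x).filter fun b => b).length = cb true x := by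
    rw [List.ofFn_eq_map, List.filter_map, List.length_map]
    unfold cb
    change _ = ((List.finRange N).filter fun i => decide (x i = true)).length
    congr 2
    ext i
    simp
  change ((List.ofFn x).filter fun b => b).length % 2 = 1 ↔ _
  rw [h]

theorem inP_L : InP L := by
  refine ⟨fun w => [decide ((w.filter fun b => b).length % 2 = 1)], polyTime_of_poly ?_, ?_⟩
  · refine NPC.Poly.decide_eq (NPC.Poly.mod (NPC.Poly.length ?_) (NPC.Poly.const 2))
      (NPC.Poly.const 1)
    exact NPC.Poly.filter NPC.Poly.id (NPC.Poly.snd NPC.Poly.id)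
  · intro x
    change _ % 2 = 1 ↔ _
    simp

end Pool.Agent.J6H7.SC
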