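import Pool.Agent.J6H7.SC.Move

/-!
# Circuits whose gates have few transforms: the gates are determined by few bits
-/

set_option autoImplicit false
set_option linter.unusedSectionVars false

namespace Pool.Agent.J6H7.SC

open Equiv Equiv.Perm

variable {N t r : ℕ} {I : Type}

namespace Circ

variable (C : Circ N t r I)

theorem eval_eq (x : Fin N → Bool) (g : I) : C.eval x g = C.fn g (C.val x) := by
  classical
  rw [eval]
  refine C.dep g _ _ fun c hc => ?_
  rcases c with i | h
  · rfl
  · simp only [Sum.elim_inr, val]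
    rw [dif_pos hc]

theorem val_inl (x : Fin N → Bool) (i : Fin N) : C.val x (Sum.inl i) = x i := rfl

theorem val_inr (x : Fin N → Bool) (g : I) : C.val x (Sum.inr g) = C.eval x g := rfl

/-- A wire is determined on the inputs of the middle layers by at most `s` bits. -/
def Det (k s : ℕ) (c : Fin N ⊕ I) : Prop :=
  ∃ T : Finset (Fin N), T.card ≤ s ∧ ∀ x y : Fin N → Bool, Middle k x → Middle k y →
    (∀ i ∈ T, x i = y i) → C.val x c = C.val y c

theorem middle_comp {k : ℕ} {x : Fin N → Bool} (hx : Middle k x) (σ : Perm (Fin N)) :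
    Middle k (x ∘ σ) := by
  have h : ∀ b : Bool, (Finset.univ.filter fun i => (x ∘ σ) i = b).card =
      (Finset.univ.filter fun i => x i = b).card := by
    intro b
    refine Finset.card_bij (fun i _ => σ i) ?_ ?_ ?_
    · intro i hi
      simpa using hi
    · intro i _ j _ h
      exact σ.injective h
    · intro j hj
      refine ⟨σ.symm j, ?_, by simp⟩
      simpa using hj
  unfold Middle
  rw [h true, h false]
  exact hx

theorem middle_le {k s : ℕ} (hk : 1 ≤ k) (hs : k * s ≤ 4 * N) {x : Fin N → Bool}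
    (hx : Middle k x) :
    s ≤ (Finset.univ.filter fun i => x i = true).card ∧
      s ≤ (Finset.univ.filter fun i => x i = false).card :=
  ⟨Nat.le_of_mul_le_mul_left (hs.trans hx.1) hk, Nat.le_of_mul_le_mul_left (hs.trans hx.2) hk⟩

/-- One gate. -/
theorem det_gate {k s : ℕ} (hk : 1 ≤ k) (ht : 1 ≤ t) (hs : k * (s + t * s + 1) ≤ 4 * N)
    (hs5 : s + 5 ≤ N) (hr : r + s < N) [Finite I] (g : I)
    (hch : ∀ c ∈ C.ch g, C.Det k s c) (S : Finset (Fin N)) (hS : S.card ≤ s)
    (hsupp : Supp (C.trace g) S) {x y : Fin N → Bool} (hx : Middle k x) (hy : Middle k y)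
    (hxy : ∀ i ∈ S, x i = y i) : C.eval x g = C.eval y g := by
  classical
  by_cases hkind : ∃ b, Certified (C.ch g) (C.fn g) t b
  · -- a gate with certificates
    have htr : C.trace g = {fun x => C.eval x g} := by
      unfold trace
      rw [if_pos hkind]
    rw [htr] at hsupp
    obtain ⟨b, hb⟩ := hkind
    have key : ∀ x y : Fin N → Bool, Middle k x → Middle k y → (∀ i ∈ S, x i = y i) →
        C.eval x g = b → C.eval y g = b := by
      intro x y hx hy hxy hxb
      rw [eval_eq] at hxb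
      obtain ⟨B, hB1, hB2, hB3⟩ := hb _ hxb
      have hex : ∀ c : B, ∃ T : Finset (Fin N), T.card ≤ s ∧ ∀ x y : Fin N → Bool,
          Middle k x → Middle k y → (∀ i ∈ T, x i = y i) → C.val x c = C.val y c :=
        fun c => hch c (hB1 c c.2)
      choose T hT1 hT2 using hex
      obtain ⟨T', hT'⟩ : ∃ T', T' = Finset.univ.biUnion T := ⟨_, rfl⟩
      have hcard : T'.card ≤ t * s := by
        rw [hT']
        refine Finset.card_biUnion_le.trans ((Finset.sum_le_card_nsmul _ _ s
          (fun c _ => hT1 c)).trans ?_)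
        rw [Finset.card_univ, Fintype.card_coe, smul_eq_mul]
        exact Nat.mul_le_mul_right _ hB2
      obtain ⟨hy1, hy0⟩ := middle_le hk hs hy
      obtain ⟨γ, hγ1, hγ2, hγ3⟩ := exists_move S T' hS hcard hxy hy1 hy0
      have h1 : C.eval (y ∘ γ) g = b := by
        rw [eval_eq]
        refine hB3 _ fun c hc => ?_
        refine hT2 ⟨c, hc⟩ (y ∘ γ) x (middle_comp hy γ) hx fun i hi => ?_
        refine hγ3 i ?_
        rw [hT', Finset.mem_biUnion]
        exact ⟨⟨c, hc⟩, Finset.mem_univ _, hi⟩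
      have h2 := hsupp γ hγ1 hγ2
      rw [Set.image_singleton, Set.singleton_eq_singleton_iff] at h2
      have h3 : C.eval (y ∘ γ) g = C.eval y g := congrFun h2 y
      rw [← h3]
      exact h1
    by_cases h1 : C.eval x g = b
    · rw [h1, key x y hx hy hxy h1]
    · by_cases h2 : C.eval y g = b
      · exact absurd (key y x hy hx (fun i hi => (hxy i hi).symm) h2) h1
      · revert h1 h2
        cases C.eval x g <;> cases C.eval y g <;> cases b <;> simp
  · -- a gate with few wires
    have htr : C.trace g = (fun c x => C.val x c) '' C.ch g := by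
      unfold trace
      rw [if_neg hkind]
    have hfew : (C.ch g).ncard ≤ r := (C.kind g).resolve_left hkind
    have hcard : (C.trace g).ncard ≤ r := by
      rw [htr]
      exact (Set.ncard_image_le (Set.toFinite _)).trans hfew
    rw [eval_eq, eval_eq]
    refine C.dep g _ _ fun c hc => ?_
    have hmem : (fun x => C.val x c) ∈ C.trace g := by
      rw [htr]
      exact ⟨c, hc, rfl⟩
    have hinv := small_family hsupp (by omega) (by omega) hmem
    obtain ⟨T, hT1, hT2⟩ := hch c hc
    have hTt : T.card ≤ t * s := hT1.trans (Nat.le_mul_of_pos_left s ht)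
    obtain ⟨hy1, hy0⟩ := middle_le hk hs hy
    obtain ⟨γ, hγ1, hγ2, hγ3⟩ := exists_move S T hS hTt hxy hy1 hy0
    have h1 : C.val (y ∘ γ) c = C.val x c := hT2 _ _ (middle_comp hy γ) hx hγ3
    have h2 := hinv γ hγ1 hγ2
    rw [Set.image_singleton, Set.singleton_eq_singleton_iff] at h2
    have h3 : C.val (y ∘ γ) c = C.val y c := congrFun h2 y
    rw [← h1, h3]

/-- All gates. -/
theorem det_all {k s : ℕ} (hk : 1 ≤ k) (ht : 1 ≤ t) (hs1 : 1 ≤ s)
    (hs : k * (s + t * s + 1) ≤ 4 * N) (hs5 : s + 5 ≤ N) (hr : r + s < N) [Finite I]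
    (hsupp : ∀ g, ∃ S : Finset (Fin N), S.card ≤ s ∧ Supp (C.trace g) S) (g : I) :
    C.Det k s (Sum.inr g) := by
  induction h : C.rank g using Nat.strong_induction_on generalizing g with
  | _ n ih =>
    obtain ⟨S, hS1, hS2⟩ := hsupp g
    refine ⟨S, hS1, fun x y hx hy hxy => ?_⟩
    refine C.det_gate hk ht hs hs5 hr g (fun c hc => ?_) S hS1 hS2 hx hy hxy
    rcases c with i | g'
    · refine ⟨{i}, by rw [Finset.card_singleton]; exact hs1, fun x y _ _ hxy => ?_⟩
      exact hxy i (Finset.mem_singleton_self i)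
    · exact ih (C.rank g') (h ▸ C.rank_lt g g' hc) g' rfl

/-- **The gates are determined by few bits on the middle layers.** -/
theorem determined {k : ℕ} (hk : 10 ≤ k) (ht : 1 ≤ t) (hN : k * t ≤ N)
    (hr : k * r + 2 * N ≤ k * N) [Finite I]
    (hM : ∀ h : I, (C.transforms h).ncard ^ (k * t) ≤ 2 ^ N) (g : I) :
    ∃ S : Finset (Fin N), k * S.card ≤ 2 * N ∧ ∀ x y : Fin N → Bool, Middle k x → Middle k y →
      (∀ i ∈ S, x i = y i) → C.eval x g = C.eval y g := by
  obtain ⟨m, hm⟩ : ∃ m, m = N / (k * t) := ⟨_, rfl⟩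
  have hkt : 0 < k * t := Nat.mul_pos (by omega) (by omega)
  have hm1 : 1 ≤ m := by
    rw [hm]
    exact (Nat.one_le_div_iff hkt).2 hN
  have hm2 : k * t * m ≤ N := by
    rw [hm]
    exact Nat.mul_div_le N (k * t)
  have hm3 : N < k * t * (m + 1) := by
    rw [hm]
    exact Nat.lt_mul_div_succ N hkt
  have hkm : k * m ≤ N := by
    refine le_trans ?_ hm2
    refine Nat.mul_le_mul_right m ?_
    exact Nat.le_mul_of_pos_right k ht
  have h10 : 10 * m ≤ N := (Nat.mul_le_mul_right m hk).trans hkm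
  have hcard : ∀ h : I, (C.transforms h).ncard < 5 ^ m := by
    intro h
    have h1 : (C.transforms h).ncard ^ (k * t) < (2 ^ (m + 1)) ^ (k * t) := by
      refine lt_of_le_of_lt (hM h) ?_
      rw [← pow_mul]
      refine Nat.pow_lt_pow_right (by omega) ?_
      rw [Nat.mul_comm]
      exact hm3
    have h2 : (C.transforms h).ncard < 2 ^ (m + 1) := lt_of_pow_lt_pow_left₀ _ (Nat.zero_le _) h1
    have h3 : ∀ j, 2 ^ (j + 1 + 1) ≤ 5 ^ (j + 1) := by
      intro j
      induction j with
      | zero => norm_num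
      | succ j ih =>
        rw [pow_succ 2 (j + 1 + 1), pow_succ 5 (j + 1)]
        omega
    obtain ⟨j, rfl⟩ : ∃ j, m = j + 1 := ⟨m - 1, by omega⟩
    exact lt_of_lt_of_le h2 (h3 j)
  have hsupp : ∀ g, ∃ S : Finset (Fin N), S.card ≤ 2 * m - 1 ∧ Supp (C.trace g) S := by
    intro g
    obtain ⟨S, hS1, hS2⟩ := exists_supp hm1 h10 (C.trace g) (C.transforms g)
      (fun σ => ⟨σ, rfl⟩) (hcard g)
    exact ⟨S, by omega, hS2⟩
  have hs : k * ((2 * m - 1) + t * (2 * m - 1) + 1) ≤ 4 * N := by
    have h1 : (2 * m - 1) + t * (2 * m - 1) + 1 ≤ 4 * (t * m) := by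
      obtain ⟨j, rfl⟩ : ∃ j, m = j + 1 := ⟨m - 1, by omega⟩
      obtain ⟨u, rfl⟩ : ∃ u, t = u + 1 := ⟨t - 1, by omega⟩
      have : 2 * (j + 1) - 1 = 2 * j + 1 := by omega
      rw [this]
      nlinarith [Nat.zero_le (u * j)]
    calc k * ((2 * m - 1) + t * (2 * m - 1) + 1) ≤ k * (4 * (t * m)) := Nat.mul_le_mul_left _ h1
      _ = 4 * (k * t * m) := by ring
      _ ≤ 4 * N := Nat.mul_le_mul_left _ hm2
  have hrs : r + (2 * m - 1) < N := by
    by_contra hcon
    push Not at hcon
    have h1 : k * N ≤ k * (r + (2 * m - 1)) := Nat.mul_le_mul_left _ hcon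
    have h2 : k * (r + (2 * m - 1)) + k ≤ k * r + 2 * (k * m) := by
      obtain ⟨j, rfl⟩ : ∃ j, m = j + 1 := ⟨m - 1, by omega⟩
      have : 2 * (j + 1) - 1 = 2 * j + 1 := by omega
      rw [this]
      nlinarith
    omega
  obtain ⟨S, hS1, hS2⟩ := C.det_all (k := k) (s := 2 * m - 1) (by omega) ht (by omega) hs
    (by omega) hrs hsupp g
  refine ⟨S, ?_, hS2⟩
  calc k * S.card ≤ k * (2 * m) := Nat.mul_le_mul_left _ (by omega)
    _ = 2 * (k * m) := by ring
    _ ≤ 2 * N := Nat.mul_le_mul_left _ hkm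

end Circ

end Pool.Agent.J6H7.SC
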