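import Pool.Agent.J6H7.SC.Defs
import Pool.Agent.J6H7.GX.Sym.Supp

/-!
# Moving functions and points
-/

set_option autoImplicit false
set_option linter.unusedSectionVars false

namespace Pool.Agent.J6H7.SC

open Equiv Equiv.Perm Pool.Agent.Y600.Circ Pool.Agent.J6H7.GX

variable {N : ℕ}

theorem move_one (f : BF N) : move 1 f = f := rfl

theorem move_mul (σ τ : Perm (Fin N)) (f : BF N) : move (σ * τ) f = move σ (move τ f) := rfl

theorem move_image_one (F : Set (BF N)) : move 1 '' F = F := by
  have : (move 1 : BF N → BF N) = id := rfl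
  rw [this, Set.image_id]

theorem move_image_mul (σ τ : Perm (Fin N)) (F : Set (BF N)) :
    move (σ * τ) '' F = move σ '' (move τ '' F) := by
  rw [← Set.image_comp]
  rfl

/-- the stabilizer of a set of functions -/
def stab (F : Set (BF N)) : Subgroup (Perm (Fin N)) where
  carrier := {σ | move σ '' F = F}
  mul_mem' := by
    intro a b ha hb
    change move a '' F = F at ha
    change move b '' F = F at hb
    change move (a * b) '' F = F
    rw [move_image_mul, hb, ha]
  one_mem' := move_image_one F
  inv_mem' := by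
    intro a ha
    change move a '' F = F at ha
    change move a⁻¹ '' F = F
    conv_lhs => rw [← ha]
    rw [← move_image_mul, inv_mul_cancel, move_image_one]

theorem mem_stab {F : Set (BF N)} {σ : Perm (Fin N)} : σ ∈ stab F ↔ move σ '' F = F := Iff.rfl

theorem mem_stab_singleton {f : BF N} {σ : Perm (Fin N)} :
    σ ∈ stab ({f} : Set (BF N)) ↔ move σ f = f := by
  rw [mem_stab, Set.image_singleton, Set.singleton_eq_singleton_iff]

/-- supports of sets of functions -/
def Supp (F : Set (BF N)) (S : Finset (Fin N)) : Prop :=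
  ∀ γ : Perm (Fin N), sign γ = 1 → (∀ s ∈ S, γ s = s) → move γ '' F = F

/-- Existence of supports. -/
theorem exists_supp {m : ℕ} (hm : 1 ≤ m) (hN : 10 * m ≤ N) (F : Set (BF N))
    (Z : Set (Set (BF N))) (hZ : ∀ σ : Perm (Fin N), move σ '' F ∈ Z) (hcard : Z.ncard < 5 ^ m) :
    ∃ S : Finset (Fin N), S.card < 2 * m ∧ Supp F S := by
  classical
  have hfin : Z.Finite := Set.toFinite Z
  let _ : Fintype Z := hfin.fintype
  obtain ⟨S, hS1, hS2⟩ := exists_support' (W := Fin N) (H := stab F) (Z := Z) (N := 5) (m := m)
    (le_refl 5) hm (by rw [Fintype.card_fin]; omega) (fun σ => ⟨move σ '' F, hZ σ⟩)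
    (fun γ γ' h => by
      have h1 : move γ '' F = move γ' '' F := congrArg Subtype.val h
      rw [mem_stab, move_image_mul, ← h1, ← move_image_mul, inv_mul_cancel, move_image_one])
    (by rwa [← Nat.card_eq_fintype_card])
  exact ⟨S, hS1, fun γ h1 h2 => hS2 γ h1 h2⟩

/-- The functions in a small set that is invariant under the even permutations fixing `S` are
invariant themselves. -/
theorem small_family {F : Set (BF N)} {S : Finset (Fin N)} (hF : Supp F S)
    (h5 : S.card + 5 ≤ N) (hcard : F.ncard + S.card < N) {f : BF N} (hf : f ∈ F) :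
    Supp {f} S := by
  classical
  obtain ⟨n', hn'⟩ : ∃ n', n' = N - S.card := ⟨_, rfl⟩
  have hc : Fintype.card {x // x ∉ S} = n' := by
    rw [Fintype.card_subtype_compl, Fintype.card_fin, Fintype.card_coe, hn']
  let e : Fin n' ≃ {x // x ∉ S} := (Fintype.equivFinOfCardEq hc).symm
  -- the even permutations of the complement
  have hsign : ∀ a : Perm (Fin n'), sign (a.extendDomain e) = sign a :=
    fun a => sign_extendDomain a e
  have hfix : ∀ a : Perm (Fin n'), ∀ s ∈ S, a.extendDomain e s = s := by
    intro a s hs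
    exact extendDomain_apply_not_subtype a e (by simpa using hs)
  let K : Subgroup (alternatingGroup (Fin n')) :=
    ((stab ({f} : Set (BF N))).comap (extendDomainHom e)).subgroupOf (alternatingGroup (Fin n'))
  have hK : ∀ a : alternatingGroup (Fin n'), a ∈ K ↔
      move ((a : Perm (Fin n')).extendDomain e) f = f := by
    intro a
    rw [Subgroup.mem_subgroupOf, Subgroup.mem_comap, ← mem_stab_singleton]
    rfl
  have hKtop : K = ⊤ := by
    by_contra hcon
    obtain ⟨p, hp⟩ := exists_cosets (N := n') (by omega) K hcon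
    have h1 : ∀ i, move ((p i : Perm (Fin n')).extendDomain e) f ∈ F := by
      intro i
      rw [← hF ((p i : Perm (Fin n')).extendDomain e)
        (by rw [hsign]; exact mem_alternatingGroup.1 (p i).2) (hfix _)]
      exact Set.mem_image_of_mem _ hf
    have h2 : Function.Injective
        (fun i : Fin n' => (⟨move ((p i : Perm (Fin n')).extendDomain e) f, h1 i⟩ : F)) := by
      intro i j hij
      by_contra hne
      refine hp i j hne ((hK _).2 ?_)
      have h3 : move ((p i : Perm (Fin n')).extendDomain e) f =
          move ((p j : Perm (Fin n')).extendDomain e) f := congrArg Subtype.val hij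
      have h4 : (((p i)⁻¹ * p j : alternatingGroup (Fin n')) : Perm (Fin n')).extendDomain e =
          ((p i : Perm (Fin n')).extendDomain e)⁻¹ * (p j : Perm (Fin n')).extendDomain e := by
        rw [Subgroup.coe_mul, Subgroup.coe_inv, ← extendDomain_mul, extendDomain_inv]
      rw [h4, move_mul, ← h3, ← move_mul, inv_mul_cancel, move_one]
    have h3 := Nat.card_le_card_of_injective _ h2
    rw [Nat.card_fin] at h3
    change n' ≤ F.ncard at h3
    omega
  intro γ hγ hγS
  rw [← mem_stab]
  refine mem_of_class (H := stab ({f} : Set (BF N))) Sᶜ (fun x hx y hy => ?_) hγ (fun x hx => ?_)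
  · rw [Finset.mem_compl] at hx hy
    by_cases hxy : x = y
    · exact Or.inl hxy
    obtain ⟨z, hz⟩ : ∃ z, z ∉ S ∪ {x, y} := by
      by_contra hcon
      push Not at hcon
      have h2 : S ∪ {x, y} = Finset.univ := Finset.eq_univ_iff_forall.2 hcon
      have h3 := congrArg Finset.card h2
      rw [Finset.card_univ, Fintype.card_fin] at h3
      have h4 := Finset.card_union_le S {x, y}
      have h5 := Finset.card_le_two (a := x) (b := y)
      omega
    simp only [Finset.mem_union, Finset.mem_insert, Finset.mem_singleton, not_or] at hz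
    obtain ⟨hz1, hz2, hz3⟩ := hz
    refine Or.inr ⟨z, hz2, hz3, ?_⟩
    obtain ⟨x', hx'⟩ : ∃ x', e x' = ⟨x, hx⟩ := e.surjective _
    obtain ⟨y', hy'⟩ : ∃ y', e y' = ⟨y, hy⟩ := e.surjective _
    obtain ⟨z', hz'⟩ : ∃ z', e z' = ⟨z, hz1⟩ := e.surjective _
    have ex : ((e x' : {x // x ∉ S}) : Fin N) = x := by rw [hx']
    have ey : ((e y' : {x // x ∉ S}) : Fin N) = y := by rw [hy']
    have ez : ((e z' : {x // x ∉ S}) : Fin N) = z := by rw [hz']
    have n1 : x' ≠ y' := by
      intro h
      exact hxy (by rw [← ex, ← ey, h])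
    have n2 : x' ≠ z' := by
      intro h
      exact hz2 (by rw [← ex, ← ez, h])
    have n3 : y' ≠ z' := by
      intro h
      exact hz3 (by rw [← ey, ← ez, h])
    have h1 : (c3 x' y' z').extendDomain e = c3 x y z := by
      ext w
      congr 1
      by_cases hw : w ∈ S
      · rw [hfix _ w hw, c3_of_ne]
        · exact fun h => hx (h ▸ hw)
        · exact fun h => hy (h ▸ hw)
        · exact fun h => hz1 (h ▸ hw)
      · obtain ⟨w', hw'⟩ : ∃ w', e w' = ⟨w, hw⟩ := e.surjective _
        have ew : ((e w' : {x // x ∉ S}) : Fin N) = w := by rw [hw']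
        rw [← ew, extendDomain_apply_image]
        by_cases e1 : w' = x'
        · rw [e1, c3_x n1 n2, ex, ey, c3_x hxy (Ne.symm hz2)]
        by_cases e2 : w' = y'
        · rw [e2, c3_y n2 n3, ey, ez, c3_y (Ne.symm hz2) (Ne.symm hz3)]
        by_cases e3 : w' = z'
        · rw [e3, c3_z, ez, ex, c3_z]
        rw [c3_of_ne e1 e2 e3, c3_of_ne]
        · intro h
          exact e1 (e.injective (Subtype.ext (h.trans ex.symm)))
        · intro h
          exact e2 (e.injective (Subtype.ext (h.trans ey.symm)))
        · intro h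
          exact e3 (e.injective (Subtype.ext (h.trans ez.symm)))
    have h2 : (⟨c3 x' y' z', by rw [mem_alternatingGroup]; exact sign_c3 n1 n3⟩ :
        alternatingGroup (Fin n')) ∈ K := by
      rw [hKtop]
      exact Subgroup.mem_top _
    rw [hK] at h2
    rw [mem_stab_singleton, ← h1]
    exact h2
  · rw [Finset.mem_compl, not_not] at hx
    exact hγS x hx

/-- An even permutation with prescribed values on a set that is not too large. -/
theorem exists_even (A : Finset (Fin N)) (hA : A.card + 2 ≤ N) (f : Fin N → Fin N)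
    (hf : ∀ a ∈ A, ∀ b ∈ A, f a = f b → a = b) :
    ∃ γ : Perm (Fin N), sign γ = 1 ∧ ∀ a ∈ A, γ a = f a := by
  classical
  obtain ⟨σ, hσ⟩ := exists_perm (ι := A) (u := fun a => (a : Fin N)) (v := fun a => f a)
    Subtype.val_injective (fun a b h => Subtype.ext (hf a a.2 b b.2 h))
  rcases Int.units_eq_one_or (sign σ) with h1 | h1
  · exact ⟨σ, h1, fun a ha => hσ ⟨a, ha⟩⟩
  · obtain ⟨B, hB1, hB2⟩ : ∃ B : Finset (Fin N), B ⊆ Aᶜ ∧ B.card = 2 := by
      refine Finset.exists_subset_card_eq ?_
      rw [Finset.card_compl, Fintype.card_fin]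
      omega
    obtain ⟨a, b, hab, rfl⟩ := Finset.card_eq_two.1 hB2
    have ha : a ∉ A := Finset.mem_compl.1 (hB1 (by simp))
    have hb : b ∉ A := Finset.mem_compl.1 (hB1 (by simp))
    refine ⟨σ * swap a b, by rw [Perm.sign_mul, h1, sign_swap hab]; rfl, fun c hc => ?_⟩
    have e1 : c ≠ a := fun h => ha (h ▸ hc)
    have e2 : c ≠ b := fun h => hb (h ▸ hc)
    rw [mul_apply, swap_apply_of_ne_of_ne e1 e2]
    exact hσ ⟨c, hc⟩

/-- The moving lemma. -/
theorem exists_move {s u : ℕ} (S T : Finset (Fin N)) (hS : S.card ≤ s) (hT : T.card ≤ u)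
    {x y : Fin N → Bool} (hxy : ∀ i ∈ S, x i = y i)
    (h1 : s + u + 1 ≤ (Finset.univ.filter fun i => y i = true).card)
    (h0 : s + u + 1 ≤ (Finset.univ.filter fun i => y i = false).card) :
    ∃ γ : Perm (Fin N), sign γ = 1 ∧ (∀ i ∈ S, γ i = i) ∧ ∀ i ∈ T, y (γ i) = x i := by
  classical
  have hcard : ∀ b : Bool, s + u + 1 ≤ (Finset.univ.filter fun i => y i = b).card := by
    intro b
    cases b
    · exact h0
    · exact h1
  have hout : ∀ b : Bool, ∃ f : Fin N → Fin N,
      (∀ i ∈ T \ S, f i ∈ (Finset.univ.filter fun i => y i = b) \ S) ∧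
      (∀ i ∈ T \ S, ∀ j ∈ T \ S, f i = f j → i = j) := by
    intro b
    have h2 : (T \ S).card ≤ ((Finset.univ.filter fun i => y i = b) \ S).card := by
      have h3 := Finset.le_card_sdiff S (Finset.univ.filter fun i => y i = b)
      have h4 := Finset.card_le_card (Finset.sdiff_subset (s := T) (t := S))
      have h5 := hcard b
      omega
    obtain ⟨e⟩ : Nonempty ((T \ S : Finset (Fin N)) ↪
        ((Finset.univ.filter fun i => y i = b) \ S : Finset (Fin N))) :=
      Function.Embedding.nonempty_of_card_le (by simpa only [Fintype.card_coe] using h2)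
    refine ⟨fun i => if h : i ∈ T \ S then (e ⟨i, h⟩ : Fin N) else i, ?_, ?_⟩
    · intro i hi
      simp only [dif_pos hi]
      exact (e ⟨i, hi⟩).2
    · intro i hi j hj h
      simp only [dif_pos hi, dif_pos hj] at h
      exact congrArg Subtype.val (e.injective (Subtype.ext h))
  choose F hF1 hF2 using hout
  have hN : s + u + 1 + (s + u + 1) ≤ N := by
    have h2 := Finset.card_filter_add_card_filter_not (s := (Finset.univ : Finset (Fin N)))
      (fun i => y i = true)
    have h3 : (Finset.univ.filter fun i => ¬ y i = true) =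
        Finset.univ.filter fun i => y i = false := by
      ext i
      simp
    rw [h3, Finset.card_univ, Fintype.card_fin] at h2
    omega
  obtain ⟨γ, hγ1, hγ2⟩ := exists_even (S ∪ T) (by
      have h2 := Finset.card_union_le S T
      omega)
    (fun i => if i ∈ S then i else F (x i) i) (by
      intro a ha b hb h
      by_cases haS : a ∈ S
      · by_cases hbS : b ∈ S
        · simpa only [if_pos haS, if_pos hbS] using h
        · have hbT : b ∈ T \ S := by
            rw [Finset.mem_sdiff]
            exact ⟨(Finset.mem_union.1 hb).resolve_left hbS, hbS⟩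
          simp only [if_pos haS, if_neg hbS] at h
          have h2 := hF1 (x b) b hbT
          rw [← h] at h2
          exact absurd haS (Finset.mem_sdiff.1 h2).2
      · have haT : a ∈ T \ S := by
          rw [Finset.mem_sdiff]
          exact ⟨(Finset.mem_union.1 ha).resolve_left haS, haS⟩
        by_cases hbS : b ∈ S
        · simp only [if_neg haS, if_pos hbS] at h
          have h2 := hF1 (x a) a haT
          rw [h] at h2
          exact absurd hbS (Finset.mem_sdiff.1 h2).2
        · have hbT : b ∈ T \ S := by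
            rw [Finset.mem_sdiff]
            exact ⟨(Finset.mem_union.1 hb).resolve_left hbS, hbS⟩
          simp only [if_neg haS, if_neg hbS] at h
          have h2 := hF1 (x a) a haT
          have h3 := hF1 (x b) b hbT
          rw [← h] at h3
          rw [Finset.mem_sdiff, Finset.mem_filter] at h2 h3
          have h4 : x a = x b := h2.1.2.symm.trans h3.1.2
          rw [← h4] at h
          exact hF2 (x a) a haT b hbT h)
  refine ⟨γ, hγ1, fun i hi => ?_, fun i hi => ?_⟩
  · rw [hγ2 i (Finset.mem_union_left T hi), if_pos hi]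
  · rw [hγ2 i (Finset.mem_union_right S hi)]
    by_cases hiS : i ∈ S
    · rw [if_pos hiS]
      exact (hxy i hiS).symm
    · rw [if_neg hiS]
      have h2 := hF1 (x i) i (Finset.mem_sdiff.2 ⟨hi, hiS⟩)
      rw [Finset.mem_sdiff, Finset.mem_filter] at h2
      exact h2.1.2

end Pool.Agent.J6H7.SC
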